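import Mathlib
import Pool.Agent.MP_42ec7b_co.A.Final

set_option autoImplicit false

namespace Pool.Agent.Results.MP_42ec7b_co.AlmostAll

open Pool.Agent.MP_42ec7b_co

/-- In a large planar 4-regular 4-connected graph on `n` vertices at most `ε n` of the numbers
`3, …, n` are not lengths of cycles. -/
theorem result (ε : ℝ) (hε : 0 < ε) : ∃ n₀ : ℕ, ∀ (V : Type) [Fintype V] (G : SimpleGraph V),
    Planar G → (∀ v : V, (G.neighborSet v).ncard = 4) →
    (4 < Fintype.card V ∧
      ∀ S : Finset V, S.card ≤ 3 → (G.induce ((↑S : Set V)ᶜ)).Connected) →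
    n₀ ≤ Fintype.card V →
    ({k : ℕ | 3 ≤ k ∧ k ≤ Fintype.card V ∧
      ¬∃ (v : V) (p : G.Walk v v), p.IsCycle ∧ p.length = k}.ncard : ℝ) ≤ ε * Fintype.card V :=
  bridge almost_all ε hε

end Pool.Agent.Results.MP_42ec7b_co.AlmostAll
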