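import Mathlib
import Pool.Agent.MP_42ec7b_co.F5.One

set_option autoImplicit false

namespace Pool.Agent.Results.MP_42ec7b_co.FacesFive

open Pool.Agent.MP_42ec7b_co.F5

/-- In a plane 4-regular 4-connected graph on `n` vertices at most `∑ (|f| - 5)⁺` of the numbers
`3, 5, 6, …, n` are not lengths of cycles. -/
theorem result (V : Type) [Fintype V] (G : SimpleGraph V) (ρ φ : Equiv.Perm G.Dart)
    (hp : IsPlane G ρ φ) (hr : ∀ v : V, (G.neighborSet v).ncard = 4)
    (h4 : 4 < Fintype.card V ∧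
      ∀ S : Finset V, S.card ≤ 3 → (G.induce ((↑S : Set V)ᶜ)).Connected) :
    {k : ℕ | 3 ≤ k ∧ k ≤ Fintype.card V ∧ k ≠ 4 ∧
        ¬∃ (v : V) (p : G.Walk v v), p.IsCycle ∧ p.length = k}.ncard ≤
      ∑ᶠ x : Quotient (Equiv.Perm.SameCycle.setoid φ), (faceSize x - 5) :=
  final1 V G ρ φ hp hr h4

end Pool.Agent.Results.MP_42ec7b_co.FacesFive
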