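import Mathlib
import Pool.Agent.MP_42ec7b_co.Full

set_option autoImplicit false

namespace Pool.Agent.Results.MP_42ec7b_co.LineGraphs

open Pool.Agent.MP_42ec7b_co

/-- Let `G` be a finite planar cubic graph whose line graph is 4-connected. The line graph has
a cycle of every length `k ≠ 4` between `3` and its number of vertices. -/
theorem result (V : Type) [Fintype V] (G : SimpleGraph V) (hp : Planar G)
    (h3 : ∀ v : V, (G.neighborSet v).ncard = 3)
    (h4 : 4 < Nat.card G.edgeSet ∧ ∀ S : Finset G.edgeSet, S.card ≤ 3 →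
      (G.lineGraph.induce ((↑S : Set G.edgeSet)ᶜ)).Connected)
    (k : ℕ) (h1 : 3 ≤ k) (h2 : k ≠ 4) (hk : k ≤ Nat.card G.edgeSet) :
    ∃ (e : G.edgeSet) (p : G.lineGraph.Walk e e), p.IsCycle ∧ p.length = k :=
  full_line hp h3 h4.2 h1 h2 hk

end Pool.Agent.Results.MP_42ec7b_co.LineGraphs
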